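import Pool.Agent.P.MP_c77070_an.L.MAIN
import Pool.Agent.P.MP_c77070_an.L.B1
import Pool.Agent.P.MP_c77070_an.L.B2
import Pool.Agent.P.MP_c77070_an.L.B3
import Pool.Agent.P.MP_c77070_an.L.B4

namespace Pool.Agent.Results.MP_c77070_an.LorentzHAP

open Filter Topology Pool.Agent.P.MP_c77070_an.Lor

/-- A regular weight: positive, nonincreasing, `w 0 = 1`, tends to `0`, and `w (n ^ 2)` is at
least a fixed multiple of `w n`. -/
def RegWeight (w : ℕ → ℝ) : Prop :=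
  Antitone w ∧ (∀ n, 0 < w n) ∧ w 0 = 1 ∧ Tendsto w atTop (𝓝 0) ∧
    ∃ c : ℝ, 0 < c ∧ ∀ n, c * w n ≤ w (n ^ 2)

/-- The norm of finite combinations of the vectors `e i` is the norm of `d(w,2)`. -/
def LorentzNorm (𝕜 : Type) [RCLike 𝕜] {X : Type} [NormedAddCommGroup X] [NormedSpace 𝕜 X]
    (w : ℕ → ℝ) (e : ℕ → X) : Prop :=
  ∀ (s : Finset ℕ) (a : ℕ → 𝕜),
    IsLUB (Set.range fun π : Equiv.Perm ℕ => ∑ i ∈ s, w (π i) * ‖a i‖ ^ 2)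
      (‖∑ i ∈ s, a i • e i‖ ^ 2)

/-- Every permutation of the vectors `e i` is induced by an isomorphism of `X`. -/
def Symm (𝕜 : Type) [RCLike 𝕜] {X : Type} [NormedAddCommGroup X] [NormedSpace 𝕜 X]
    (e : ℕ → X) : Prop :=
  ∀ π : Equiv.Perm ℕ, ∃ T : X ≃L[𝕜] X, ∀ n, T (e n) = e (π n)

/-- The approximation property. -/
def AP (𝕜 : Type) [RCLike 𝕜] (Y : Type) [NormedAddCommGroup Y] [NormedSpace 𝕜 Y] : Prop :=
  ∀ K : Set Y, IsCompact K → ∀ ε : ℝ, 0 < ε → ∃ T : Y →L[𝕜] Y,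
    FiniteDimensional 𝕜 (LinearMap.range (T : Y →ₗ[𝕜] Y)) ∧ ∀ y ∈ K, ‖T y - y‖ < ε

/-- The hereditary approximation property. -/
def HAP (𝕜 : Type) [RCLike 𝕜] (X : Type) [NormedAddCommGroup X] [NormedSpace 𝕜 X] : Prop :=
  ∀ Y : Submodule 𝕜 X, IsClosed (Y : Set X) → AP 𝕜 Y

/-- For a regular weight `w` the Lorentz sequence space `d(w,2)` has a symmetric basis, is not
isomorphic to `ℓ²`, and has the hereditary approximation property exactly when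
`∑ √(w (2 ^ k))` diverges; regular weights with a divergent series exist. -/
theorem result (𝕜 : Type) [RCLike 𝕜] :
    (∃ w : ℕ → ℝ, RegWeight w ∧ ¬ Summable fun k : ℕ => √(w (2 ^ k))) ∧
    ∀ w : ℕ → ℝ, RegWeight w →
      ∃ (X : Type) (_ : NormedAddCommGroup X) (_ : NormedSpace 𝕜 X) (_ : CompleteSpace X)
        (b : SchauderBasis 𝕜 X), LorentzNorm 𝕜 w b.basis ∧ Symm 𝕜 b.basis ∧
        IsEmpty (X ≃L[𝕜] lp (fun _ : ℕ => 𝕜) 2) ∧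
        (HAP 𝕜 X ↔ ¬ Summable fun k : ℕ => √(w (2 ^ k))) :=
  ⟨exists_weight, fun w hw => main 𝕜 (ex 𝕜) (sym 𝕜) (lf 𝕜) (nl 𝕜) (f2 𝕜) (jmap 𝕜) (ch 𝕜) (gf 𝕜)
    pop far est avg (lift 𝕜) (net 𝕜) (gr 𝕜) loc dav (da 𝕜) (dn 𝕜) w ⟨hw.1, hw.2.1, hw.2.2.1⟩
    hw.2.2.2.1 hw.2.2.2.2⟩

end Pool.Agent.Results.MP_c77070_an.LorentzHAP
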