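import Pool.Agent.P.MP_c77070_an.Asm
import Pool.Agent.P.MP_c77070_an.Crit
import Pool.Agent.P.MP_c77070_an.Glue
import Pool.Agent.P.MP_c77070_an.Ultra
import Pool.Agent.P.MP_c77070_an.It1
import Pool.Agent.P.MP_c77070_an.It2
import Pool.Agent.P.MP_c77070_an.Real
import Pool.Agent.P.MP_c77070_an.Block1
import Pool.Agent.P.MP_c77070_an.Emb
import Pool.Agent.P.MP_c77070_an.EmbC
import Pool.Agent.P.MP_c77070_an.Ker
import Pool.Agent.P.MP_c77070_an.Blk
import Pool.Agent.P.MP_c77070_an.Fun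
import Pool.Agent.P.MP_c77070_an.Q
import Pool.Agent.P.MP_c77070_an.Cons
import Pool.Agent.P.MP_c77070_an.ChainSys
import Pool.Agent.P.MP_c77070_an.Mix
import Pool.Agent.P.MP_c77070_an.Chain
import Pool.Agent.P.MP_c77070_an.LinCell
import Pool.Agent.P.MP_c77070_an.Kill
import Pool.Agent.P.MP_c77070_an.Pen

namespace Pool.Agent.Results.MP_c77070_an.Reflexive

open Pool.Agent.P.MP_c77070_an

universe u

/-- A Banach space all of whose closed subspaces have the approximation property is reflexive. -/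
theorem result (𝕜 : Type) [RCLike 𝕜] (X : Type u) [NormedAddCommGroup X] [NormedSpace 𝕜 X]
    [CompleteSpace X]
    (hHAP : ∀ Y : Submodule 𝕜 X, IsClosed (Y : Set X) → ∀ K : Set Y, IsCompact K →
      ∀ ε : ℝ, 0 < ε → ∃ T : Y →L[𝕜] Y,
        FiniteDimensional 𝕜 (LinearMap.range (T : Y →ₗ[𝕜] Y)) ∧ ∀ y ∈ K, ‖T y - y‖ < ε) :
    Function.Surjective (NormedSpace.inclusionInDoubleDual 𝕜 X) := by
  by_contra h
  have hN := normFacts 𝕜 X (ultra 𝕜 X) (it1 𝕜 X) (it2 𝕜 X) (realS 𝕜 X) h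
  have hB := blk 𝕜 X ker (embC 𝕜 X (emb 𝕜 X (block1 𝕜 X hN)))
  obtain ⟨s⟩ := chainSys (chain (gadget (pen tri) kill linCell
    linProd) mix)
  obtain ⟨Y, hY, hA⟩ := sysFin 𝕜 X (glue 𝕜 X (crit 𝕜 X)) (alg sq cons) trS s (funS 𝕜 X hB s)
  exact hA (hHAP Y hY)

end Pool.Agent.Results.MP_c77070_an.Reflexive
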